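import Pool.Agent.Helper79.GPW.Cover

/-! The counting bound `C_v(m) ≤ 3 m`. -/

namespace GPW

open Finset

/-- windows starting in the first return word -/
def F0 (s1 π : List Bool) (rr : ℕ) : Finset (List Bool) :=
  (range s1.length).image (fun off => window (s1 ++ (s1 ++ π)) off (π.length + rr))

/-- new windows coming from the partner `y` of the first return word -/
def F1 (s1 π : List Bool) (rr : ℕ) (y : List Bool) (q : ℕ) : Finset (List Bool) :=
  (Ico (q+1) rr).image
    (fun t => window (s1 ++ (y ++ (s1 ++ π))) (s1.length + t - rr) (π.length + rr)) ∪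
  (Ico (q+1-rr) (y.length - q)).image (fun off => window (y ++ (s1 ++ π)) off (π.length + rr))

/-- windows from `x` -/
def F2 (s1 π : List Bool) (rr : ℕ) (x : List Bool) : Finset (List Bool) :=
  (Ico 1 rr).image
    (fun t => window (s1 ++ (x ++ (s1 ++ π))) (s1.length + t - rr) (π.length + rr)) ∪
  (range x.length).image (fun off => window (x ++ (s1 ++ π)) off (π.length + rr))

theorem F0_card (s1 π : List Bool) (rr : ℕ) : (F0 s1 π rr).card ≤ s1.length :=
  card_image_le.trans (by simp)

theorem F1_card (s1 π : List Bool) (rr : ℕ) (y : List Bool) (q : ℕ) :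
    (F1 s1 π rr y q).card ≤ (rr - (q+1)) + ((y.length - q) - (q+1-rr)) := by
  refine (card_union_le _ _).trans (Nat.add_le_add ?_ ?_)
  · exact card_image_le.trans (by simp)
  · exact card_image_le.trans (by simp)

theorem F2_card (s1 π : List Bool) (rr : ℕ) (x : List Bool) :
    (F2 s1 π rr x).card ≤ (rr - 1) + x.length := by
  refine (card_union_le _ _).trans (Nat.add_le_add ?_ ?_)
  · exact card_image_le.trans (by simp)
  · exact card_image_le.trans (by simp)

/-- a window of the partner word `y` lies in `F1 y ∪ F2 x` -/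
theorem mem_pair {s1 π x y : List Bool} {q rr : ℕ} (h : PairHyp π x y q) (hπ : π <+: s1 ++ π)
    (hr1 : 1 ≤ rr) (hr : rr ≤ s1.length + 1) {f : List Bool}
    (hf : (∃ t, 1 ≤ t ∧ t < rr ∧
      f = window (s1 ++ (y ++ (s1 ++ π))) (s1.length + t - rr) (π.length + rr)) ∨
    (∃ off < y.length, f = window (y ++ (s1 ++ π)) off (π.length + rr))) :
    f ∈ F1 s1 π rr y q ∪ F2 s1 π rr x := by
  rcases hf with ⟨t, h1, h2, rfl⟩ | ⟨off, h1, rfl⟩
  · by_cases hq : t ≤ q
    · rw [h.R1 hπ hq h1 hr]
      refine mem_union_right _ (mem_union_left _ (mem_image.2 ⟨t, by simp; omega, rfl⟩))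
    · refine mem_union_left _ (mem_union_left _ (mem_image.2 ⟨t, by simp; omega, rfl⟩))
  · have hqx := h.qx
    have hqy := h.qy
    by_cases ha : y.length ≤ off + q
    · rw [h.R2 h1 ha]
      refine mem_union_right _ (mem_union_right _ (mem_image.2
        ⟨x.length + off - y.length, by simp; omega, rfl⟩))
    · by_cases hb : off + rr ≤ q
      · rw [h.R3 hπ hb]
        refine mem_union_right _ (mem_union_right _ (mem_image.2 ⟨off, by simp; omega, rfl⟩))
      · refine mem_union_left _ (mem_union_right _ (mem_image.2 ⟨off, by simp; omega, rfl⟩))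

theorem mem_pair0 {s1 π y : List Bool} {q rr : ℕ} (h : PairHyp π s1 y q) (hπ : π <+: s1 ++ π)
    (hr1 : 1 ≤ rr) (hr : rr ≤ s1.length + 1) {f : List Bool}
    (hf : (∃ t, 1 ≤ t ∧ t < rr ∧
      f = window (s1 ++ (y ++ (s1 ++ π))) (s1.length + t - rr) (π.length + rr)) ∨
    (∃ off < y.length, f = window (y ++ (s1 ++ π)) off (π.length + rr))) :
    f ∈ F1 s1 π rr y q ∪ F0 s1 π rr := by
  have h1 := mem_pair h hπ hr1 hr hf
  rcases mem_union.1 h1 with h2 | h2
  · exact mem_union_left _ h2
  · refine mem_union_right _ ?_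
    rcases mem_union.1 h2 with h3 | h3
    · obtain ⟨t, ht, rfl⟩ := mem_image.1 h3
      simp at ht
      refine mem_image.2 ⟨s1.length + t - rr, by simp; omega, ?_⟩
      have h4 : s1 ++ (s1 ++ π) <+: s1 ++ (s1 ++ (s1 ++ π)) :=
        (List.prefix_append_right_inj _).2 ((List.prefix_append_right_inj _).2 hπ)
      exact (window_prefix h4 (by simp; omega)).symm
    · exact h3

theorem mem_self {s1 π x : List Bool} {rr : ℕ} {f : List Bool}
    (hf : (∃ t, 1 ≤ t ∧ t < rr ∧
      f = window (s1 ++ (x ++ (s1 ++ π))) (s1.length + t - rr) (π.length + rr)) ∨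
    (∃ off < x.length, f = window (x ++ (s1 ++ π)) off (π.length + rr))) :
    f ∈ F2 s1 π rr x := by
  rcases hf with ⟨t, h1, h2, rfl⟩ | ⟨off, h1, rfl⟩
  · refine mem_union_left _ (mem_image.2 ⟨t, by simp; omega, rfl⟩)
  · refine mem_union_right _ (mem_image.2 ⟨off, by simp; omega, rfl⟩)

theorem pairHyp {v : ℕ → Bool} {A : ℕ → ℕ} (hA : Enum v A) (k : ℕ) (e c c' : Bool) :
    PairHyp (pre v (A k)) (r v A k e c) (r v A k e c') (q v A k e) := by
  have hI := Inv_all hA k
  obtain ⟨w, h1, h2⟩ := hI.common e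
  exact ⟨⟨w, by simpa using h1, h2 _, h2 _⟩, r_pal hA _ _ _, r_pal hA _ _ _, hI.qle _ _,
    hI.qle _ _⟩

/-- windows of `v` of length `m` -/
def fac (v : ℕ → Bool) (m : ℕ) : Set (List Bool) :=
  {f | ∃ i, f = (List.range m).map (fun j => v (i + j))}

theorem window_pre (v : ℕ → Bool) {i m n : ℕ} (h : i + m ≤ n) :
    window (pre v n) i m = (List.range m).map (fun j => v (i + j)) := by
  obtain ⟨d, rfl⟩ := Nat.exists_eq_add_of_le h
  rw [pre_add, pre_add, List.append_assoc]
  have := window_append (pre v i) (pre (fun j => v (i + j)) m ++ pre (fun j => v (i + m + j)) d) 0 m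
  simp only [length_pre, add_zero] at this
  rw [this]
  unfold window
  simp only [List.drop_zero]
  rw [List.take_append_of_le_length (by simp)]
  rw [List.take_of_length_le (by simp)]
  rfl

theorem Enum.mono {v : ℕ → Bool} {A : ℕ → ℕ} (hA : Enum v A) : StrictMono A :=
  strictMono_nat_of_lt_succ hA.lt

/-- all factors of length `m` satisfy `Cov`, once blocks at level `k+1` are in `SX`. -/
theorem fac_cov {v : ℕ → Bool} {A : ℕ → ℕ} (hA : Enum v A) (k : ℕ) {X : Set (List Bool)}
    (hX : ∀ x ∈ X, ∃ e c, x = r v A k e c)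
    (hB : ∀ b ∈ Blk v A (k+1), Gen (SX (r1 v A k) X) b) {rr : ℕ} (hr1 : 1 ≤ rr)
    (hr2 : rr ≤ (r1 v A k).length + 1) {f : List Bool} (hf : f ∈ fac v (A k + rr)) :
    Cov (r1 v A k) (pre v (A k)) X rr f := by
  obtain ⟨i, rfl⟩ := hf
  obtain ⟨g, h1, h2⟩ := pre_gen hA (i + (A k + rr)) (k+1)
  have hlen : i + (A k + rr) ≤ A (k + 1 + (i + (A k + rr))) := by
    have := hA.mono.le_apply (x := k + 1 + (i + (A k + rr)))
    omega
  rw [← window_pre v hlen, h2, main_eq hA k]
  have h3 := Gen.bind hB h1
  have := cover (π := pre v (A k)) (rr := rr) (pre_prefix_r hA k _ _)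
    (fun x hx => by
      obtain ⟨e, c, rfl⟩ := hX x hx
      exact pre_prefix_r hA k e c) hr1 hr2 h3 i
  simp only [length_pre] at this
  apply this
  change i + (A k + rr) ≤ (g ++ (r1 v A k ++ pre v (A k))).length
  rw [← main_eq hA k, ← h2, length_pre]
  exact hlen

theorem bound_at {v : ℕ → Bool} {A : ℕ → ℕ} (hA : Enum v A) (k : ℕ) {rr : ℕ} (hr1 : 2 ≤ rr)
    (hr2 : rr ≤ (r1 v A k).length + 1) : (fac v (A k + rr)).ncard ≤ 3 * (A k + rr) := by
  have hI := Inv_all hA k
  set s1 := r1 v A k with hs1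
  set π := pre v (A k) with hπ
  have hpl : π.length = A k := by simp [hπ]
  set e := v (A k) with he
  set κ := kap v A k with hκ
  have hπp : π <+: s1 ++ π := pre_prefix_r hA k _ _
  -- the pair of the other letter
  set x3 := r v A k (!e) (!κ) with hx3
  set x4 := r v A k (!e) κ with hx4
  have hp34 : PairHyp π x3 x4 (q v A k (!e)) := pairHyp hA k _ _ _
  have h4 : 2 * q v A k (!e) ≤ x4.length + 1 := hI.two (!e)
  have hc1 := F0_card s1 π rr
  have hc2 := F2_card s1 π rr x3
  have hc3 := F1_card s1 π rr x4 (q v A k (!e))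
  have hq4 := hp34.qy
  have hpsi := hI.psi
  by_cases hS : kap v A (k+1) = κ
  · -- state S
    set x2 := r v A k e (!κ) with hx2
    have hs1' : s1 = r v A k e κ := by rw [hs1]; unfold r1; rw [hS]
    have hp12 : PairHyp π s1 x2 (q v A k e) := by rw [hs1']; exact pairHyp hA k _ _ _
    have h2 : 2 * q v A k e ≤ x2.length + 1 := by
      rcases hI.two' e with h | h
      · exact h
      · exact absurd h (not_comp hA k hS)
    have hq2 := hp12.qy
    have hc4 := F1_card s1 π rr x2 (q v A k e)
    set X : Set (List Bool) := {x2, x3, x4} with hXdef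
    have hX : ∀ x ∈ X, ∃ e c, x = r v A k e c := by
      rintro x (rfl | rfl | rfl)
      · exact ⟨_, _, rfl⟩
      · exact ⟨_, _, rfl⟩
      · exact ⟨_, _, rfl⟩
    have hB : ∀ b ∈ Blk v A (k+1), Gen (SX s1 X) b := by
      rintro b ⟨e', c', rfl⟩
      apply Gen.single
      by_cases hec : e' = e ∧ c' = κ
      · obtain ⟨rfl, rfl⟩ := hec
        left; rw [r_succ_self]
      · rw [r_succ_of v A k hec]
        right
        refine ⟨r v A k e' c', ?_, rfl⟩
        have : (e' = e ∧ c' = !κ) ∨ (e' = !e ∧ c' = !κ) ∨ (e' = !e ∧ c' = κ) := by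
          revert hec
          cases e' <;> cases c' <;> cases e <;> cases κ <;> simp
        rcases this with ⟨rfl, rfl⟩ | ⟨rfl, rfl⟩ | ⟨rfl, rfl⟩
        · left; rfl
        · right; left; rfl
        · right; right; rfl
    have hsub : fac v (A k + rr) ⊆ ((F1 s1 π rr x2 (q v A k e) ∪ F0 s1 π rr) ∪
        (F1 s1 π rr x4 (q v A k (!e)) ∪ F2 s1 π rr x3) : Finset (List Bool)) := by
      intro f hf
      rcases fac_cov hA k hX hB (by omega) hr2 hf with ⟨off, h5, h6⟩ | ⟨x, hx, h5⟩
      · refine mem_union_left _ (mem_union_right _ (mem_image.2 ⟨off, by simpa using h5, h6.symm⟩))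
      · rcases hx with rfl | rfl | rfl
        · exact mem_union_left _ (mem_pair0 hp12 hπp (by omega) hr2 h5)
        · exact mem_union_right _ (mem_union_right _ (mem_self h5))
        · exact mem_union_right _ (mem_pair hp34 hπp (by omega) hr2 h5)
    have hcard := Set.ncard_le_ncard hsub (Finset.finite_toSet _)
    rw [Set.ncard_coe_finset] at hcard
    have hc5 := (card_union_le (F1 s1 π rr x2 (q v A k e) ∪ F0 s1 π rr)
        (F1 s1 π rr x4 (q v A k (!e)) ∪ F2 s1 π rr x3))
    have hc6 := card_union_le (F1 s1 π rr x2 (q v A k e)) (F0 s1 π rr)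
    have hc7 := card_union_le (F1 s1 π rr x4 (q v A k (!e))) (F2 s1 π rr x3)
    have hpsi' : s1.length + x2.length + x3.length + x4.length ≤
        3 * A k + 3 + 2 * q v A k e + 2 * q v A k (!e) := by
      have e1 : s1.length = ell v A k e κ := by rw [hs1']; rfl
      have e2 : x2.length = ell v A k e (!κ) := rfl
      have e3 : x3.length = ell v A k (!e) (!κ) := rfl
      have e4 : x4.length = ell v A k (!e) κ := rfl
      rw [e1, e2, e3, e4]
      clear_value e κ
      cases e <;> cases κ <;> simp <;> omega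
    omega
  · -- state O
    have hO : kap v A (k+1) = !κ := by
      cases h1 : κ <;> cases h2 : kap v A (k+1) <;> simp_all
    have hs1' : s1 = r v A k e (!κ) := by rw [hs1]; unfold r1; rw [hO]
    set x2 := r v A k e κ with hx2
    have h2 : 2 * q v A k e ≤ x2.length + 1 := hI.two e
    set X : Set (List Bool) := {x3, x4} with hXdef
    have hX : ∀ x ∈ X, ∃ e c, x = r v A k e c := by
      rintro x (rfl | rfl)
      · exact ⟨_, _, rfl⟩
      · exact ⟨_, _, rfl⟩
    have hB : ∀ b ∈ Blk v A (k+1), Gen (SX s1 X) b := by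
      have hg1 : s1 ∈ SX s1 X := Or.inl rfl
      rintro b ⟨e', c', rfl⟩
      by_cases hec : e' = e ∧ c' = κ
      · obtain ⟨rfl, rfl⟩ := hec
        rw [r_succ_self]; exact Gen.single hg1
      · rw [r_succ_of v A k hec]
        have : (e' = e ∧ c' = !κ) ∨ (e' = !e ∧ c' = !κ) ∨ (e' = !e ∧ c' = κ) := by
          revert hec
          cases e' <;> cases c' <;> cases e <;> cases κ <;> simp
        rcases this with ⟨rfl, rfl⟩ | ⟨rfl, rfl⟩ | ⟨rfl, rfl⟩
        · rw [← hs1']
          exact (Gen.single hg1).append (Gen.single hg1)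
        · apply Gen.single
          right; exact ⟨x3, Or.inl rfl, rfl⟩
        · apply Gen.single
          right; exact ⟨x4, Or.inr rfl, rfl⟩
    have hsub : fac v (A k + rr) ⊆ (F0 s1 π rr ∪
        (F1 s1 π rr x4 (q v A k (!e)) ∪ F2 s1 π rr x3) : Finset (List Bool)) := by
      intro f hf
      rcases fac_cov hA k hX hB (by omega) hr2 hf with ⟨off, h5, h6⟩ | ⟨x, hx, h5⟩
      · refine mem_union_left _ (mem_image.2 ⟨off, by simpa using h5, h6.symm⟩)
      · rcases hx with rfl | rfl
        · exact mem_union_right _ (mem_union_right _ (mem_self h5))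
        · exact mem_union_right _ (mem_pair hp34 hπp (by omega) hr2 h5)
    have hcard := Set.ncard_le_ncard hsub (Finset.finite_toSet _)
    rw [Set.ncard_coe_finset] at hcard
    have hc5 := (card_union_le (F0 s1 π rr)
        (F1 s1 π rr x4 (q v A k (!e)) ∪ F2 s1 π rr x3))
    have hc7 := card_union_le (F1 s1 π rr x4 (q v A k (!e))) (F2 s1 π rr x3)
    have hpsi' : s1.length + x2.length + x3.length + x4.length ≤
        3 * A k + 3 + 2 * q v A k e + 2 * q v A k (!e) := by
      have e1 : s1.length = ell v A k e (!κ) := by rw [hs1']; rfl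
      have e2 : x2.length = ell v A k e κ := rfl
      have e3 : x3.length = ell v A k (!e) (!κ) := rfl
      have e4 : x4.length = ell v A k (!e) κ := rfl
      rw [e1, e2, e3, e4]
      clear_value e κ
      cases e <;> cases κ <;> simp <;> omega
    omega

theorem fac_one (v : ℕ → Bool) : (fac v 1).ncard ≤ 2 := by
  have : fac v 1 ⊆ (({[true], [false]} : Finset (List Bool)) : Set (List Bool)) := by
    rintro f ⟨i, rfl⟩
    cases h : v i <;> simp [h]
  refine (Set.ncard_le_ncard this (Finset.finite_toSet _)).trans ?_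
  rw [Set.ncard_coe_finset]
  rfl

theorem bound_v {v : ℕ → Bool} {A : ℕ → ℕ} (hA : Enum v A) {m : ℕ} (hm : 1 ≤ m) :
    (fac v m).ncard ≤ 3 * m := by
  rcases Nat.lt_or_ge m 2 with h | h
  · have : m = 1 := by omega
    subst this
    exact (fac_one v).trans (by norm_num)
  · have hex : ∃ k, m ≤ A (k+1) + 1 := ⟨m, by
      have := hA.mono.le_apply (x := m+1); omega⟩
    obtain ⟨k, hk1, hk2⟩ : ∃ k, A k + 2 ≤ m ∧ m ≤ A (k+1) + 1 := by
      refine ⟨Nat.find hex, ?_, Nat.find_spec hex⟩
      rcases Nat.eq_zero_or_pos (Nat.find hex) with h0 | h0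
      · rw [h0, hA.zero]; omega
      · have := Nat.find_min hex (m := Nat.find hex - 1) (by omega)
        rw [Nat.sub_add_cancel h0] at this
        omega
    have hl := main_len hA k
    have := bound_at hA k (rr := m - A k) (by omega) (by omega)
    rwa [show A k + (m - A k) = m by omega] at this

end GPW
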