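import Pool.Agent.Helper79.GPW.Inv

/-! Covering the factors of length `m` by windows in few words. -/

namespace GPW

/-- window of a finite word -/
def window (w : List Bool) (i m : ℕ) : List Bool := (w.drop i).take m

theorem window_prefix {p w : List Bool} (h : p <+: w) {i m : ℕ} (him : i + m ≤ p.length) :
    window w i m = window p i m := by
  obtain ⟨t, rfl⟩ := h
  unfold window
  rw [List.drop_append_of_le_length (by omega), List.take_append_of_le_length (by simp; omega)]

theorem window_append (s w : List Bool) (i m : ℕ) :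
    window (s ++ w) (s.length + i) m = window w i m := by
  unfold window
  rw [List.drop_append, List.drop_eq_nil_of_le (by omega)]
  simp

theorem window_append' (s w : List Bool) {i m : ℕ} (h : s.length ≤ i) :
    window (s ++ w) i m = window w (i - s.length) m := by
  obtain ⟨j, rfl⟩ := Nat.exists_eq_add_of_le h
  rw [window_append]; simp

/-- products of blocks -/
inductive Gen (S : Set (List Bool)) : List Bool → Prop
  | nil : Gen S []
  | cons {b g : List Bool} : b ∈ S → Gen S g → Gen S (b ++ g)

theorem Gen.append {S : Set (List Bool)} {g h : List Bool} (hg : Gen S g) (hh : Gen S h) :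
    Gen S (g ++ h) := by
  induction hg with
  | nil => simpa using hh
  | cons hb _ ih => rw [List.append_assoc]; exact Gen.cons hb ih

theorem Gen.single {S : Set (List Bool)} {b : List Bool} (hb : b ∈ S) : Gen S b := by
  have := Gen.cons hb Gen.nil
  simpa using this

theorem Gen.bind {S T : Set (List Bool)} (h : ∀ b ∈ S, Gen T b) {g : List Bool} (hg : Gen S g) :
    Gen T g := by
  induction hg with
  | nil => exact Gen.nil
  | cons hb _ ih => exact (h _ hb).append ih

/-- the four return words -/
def Blk (v : ℕ → Bool) (A : ℕ → ℕ) (k : ℕ) : Set (List Bool) := {x | ∃ e c, x = r v A k e c}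

theorem Blk_succ (v : ℕ → Bool) (A : ℕ → ℕ) (k : ℕ) : ∀ b ∈ Blk v A (k+1), Gen (Blk v A k) b := by
  rintro b ⟨e, c, rfl⟩
  by_cases hec : e = v (A k) ∧ c = kap v A k
  · obtain ⟨rfl, rfl⟩ := hec
    rw [r_succ_self]
    exact Gen.single ⟨_, _, rfl⟩
  · rw [r_succ_of v A k hec]
    have h3 : r1 v A k ∈ Blk v A k := ⟨_, _, rfl⟩
    have h4 : r v A k e c ∈ Blk v A k := ⟨_, _, rfl⟩
    exact (Gen.single h3).append (Gen.single h4)

theorem pre_gen {v : ℕ → Bool} {A : ℕ → ℕ} (hA : Enum v A) (d k : ℕ) :
    ∃ g, Gen (Blk v A k) g ∧ pre v (A (k+d)) = g ++ pre v (A k) := by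
  induction d generalizing k with
  | zero => exact ⟨[], Gen.nil, rfl⟩
  | succ d ih =>
    obtain ⟨g, h1, h2⟩ := ih (k+1)
    have h3 : r1 v A k ∈ Blk v A k := ⟨_, _, rfl⟩
    refine ⟨g ++ r1 v A k, (Gen.bind (Blk_succ v A k) h1).append (Gen.single h3), ?_⟩
    rw [show k + (d+1) = k + 1 + d by omega, h2, main_eq hA k]; simp

/-- covering predicate -/
def Cov (s1 π : List Bool) (X : Set (List Bool)) (rr : ℕ) (f : List Bool) : Prop :=
  (∃ off < s1.length, f = window (s1 ++ (s1 ++ π)) off (π.length + rr)) ∨
  ∃ x ∈ X, (∃ t, 1 ≤ t ∧ t < rr ∧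
      f = window (s1 ++ (x ++ (s1 ++ π))) (s1.length + t - rr) (π.length + rr)) ∨
    (∃ off < x.length, f = window (x ++ (s1 ++ π)) off (π.length + rr))

/-- block set -/
def SX (s1 : List Bool) (X : Set (List Bool)) : Set (List Bool) :=
  {b | b = s1 ∨ ∃ x ∈ X, b = s1 ++ x}

theorem gen_prefix {s1 π : List Bool} {X : Set (List Bool)} (hπ : π <+: s1 ++ π)
    (hX : ∀ x ∈ X, π <+: x ++ π) {g : List Bool} (hg : Gen (SX s1 X) g) :
    s1 ++ π <+: g ++ (s1 ++ π) := by
  induction hg with
  | nil => simp
  | cons hb _ ih =>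
    rename_i b g' _
    rw [List.append_assoc]
    have h1 : b ++ (s1 ++ π) <+: b ++ (g' ++ (s1 ++ π)) := (List.prefix_append_right_inj _).2 ih
    refine List.IsPrefix.trans ?_ h1
    rcases hb with rfl | ⟨x, hx, rfl⟩
    · exact (List.prefix_append_right_inj _).2 hπ
    · rw [List.append_assoc]
      refine (List.prefix_append_right_inj _).2 ?_
      exact (hX x hx).trans ((List.prefix_append_right_inj _).2 hπ)

theorem cover {s1 π : List Bool} {X : Set (List Bool)} {rr : ℕ} (hπ : π <+: s1 ++ π)
    (hX : ∀ x ∈ X, π <+: x ++ π) (hr1 : 1 ≤ rr) (hr2 : rr ≤ s1.length + 1)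
    {g : List Bool} (hg : Gen (SX s1 X) g) :
    ∀ i, i + (π.length + rr) ≤ (g ++ (s1 ++ π)).length →
      Cov s1 π X rr (window (g ++ (s1 ++ π)) i (π.length + rr)) := by
  induction hg with
  | nil =>
    intro i hi
    left
    simp at hi
    refine ⟨i, by omega, ?_⟩
    rw [List.nil_append]
    exact (window_prefix ((List.prefix_append_right_inj _).2 hπ) (by simp; omega)).symm
  | cons hb hg' ih =>
    rename_i b g'
    intro i hi
    have hp := gen_prefix hπ hX hg'
    rw [List.append_assoc]
    by_cases hib : b.length ≤ i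
    · rw [window_append' _ _ hib]
      apply ih
      simp at hi ⊢; omega
    · push Not at hib
      rcases hb with rfl | ⟨x, hx, rfl⟩
      · left
        refine ⟨i, hib, ?_⟩
        apply window_prefix ((List.prefix_append_right_inj _).2 hp)
        simp; omega
      · rw [List.append_assoc]
        have hxp : x ++ (s1 ++ π) <+: x ++ (g' ++ (s1 ++ π)) := (List.prefix_append_right_inj _).2 hp
        by_cases his : s1.length ≤ i
        · rw [window_append' _ _ his]
          right
          refine ⟨x, hx, Or.inr ⟨i - s1.length, by simp at hib; omega, ?_⟩⟩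
          apply window_prefix hxp
          simp at hib ⊢; omega
        · by_cases hi2 : i + rr ≤ s1.length
          · left
            refine ⟨i, by omega, ?_⟩
            have h1 : s1 ++ π <+: s1 ++ (x ++ (g' ++ (s1 ++ π))) := by
              refine (List.prefix_append_right_inj _).2 ?_
              exact ((hX x hx).trans ((List.prefix_append_right_inj _).2 hπ)).trans hxp
            have h2 : s1 ++ π <+: s1 ++ (s1 ++ π) := (List.prefix_append_right_inj _).2 hπ
            rw [window_prefix h1 (by simp; omega), window_prefix h2 (by simp; omega)]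
          · right
            refine ⟨x, hx, Or.inl ⟨i + rr - s1.length, by omega, by omega, ?_⟩⟩
            rw [show s1.length + (i + rr - s1.length) - rr = i by omega]
            apply window_prefix ((List.prefix_append_right_inj _).2 hxp)
            simp; omega

/-! redundancies in a pair -/

structure PairHyp (π x y : List Bool) (q : ℕ) : Prop where
  ex : ∃ w : List Bool, w.length = π.length + q ∧ w <+: x ++ π ∧ w <+: y ++ π
  px : Pal (x ++ π)
  py : Pal (y ++ π)
  qx : q ≤ x.length
  qy : q ≤ y.length

theorem PairHyp.R1 {s1 π x y : List Bool} {q : ℕ} (h : PairHyp π x y q) (hπ : π <+: s1 ++ π)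
    {t rr : ℕ} (ht : t ≤ q) (ht1 : 1 ≤ t) (hr : rr ≤ s1.length + 1) :
    window (s1 ++ (y ++ (s1 ++ π))) (s1.length + t - rr) (π.length + rr) =
    window (s1 ++ (x ++ (s1 ++ π))) (s1.length + t - rr) (π.length + rr) := by
  obtain ⟨w, hw, hx, hy⟩ := h.ex
  have h1 : ∀ z, w <+: z ++ π → s1 ++ w <+: s1 ++ (z ++ (s1 ++ π)) := fun z hz =>
    (List.prefix_append_right_inj _).2 (hz.trans ((List.prefix_append_right_inj _).2 hπ))
  rw [window_prefix (h1 _ hx) (by simp; omega), window_prefix (h1 _ hy) (by simp; omega)]

theorem PairHyp.R3 {s1 π x y : List Bool} {q : ℕ} (h : PairHyp π x y q) (hπ : π <+: s1 ++ π)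
    {off rr : ℕ} (ht : off + rr ≤ q) :
    window (y ++ (s1 ++ π)) off (π.length + rr) = window (x ++ (s1 ++ π)) off (π.length + rr) := by
  obtain ⟨w, hw, hx, hy⟩ := h.ex
  have h1 : ∀ z, w <+: z ++ π → w <+: z ++ (s1 ++ π) := fun z hz =>
    hz.trans ((List.prefix_append_right_inj _).2 hπ)
  rw [window_prefix (h1 _ hx) (by omega), window_prefix (h1 _ hy) (by omega)]

theorem PairHyp.suff {π x y : List Bool} {q : ℕ} (h : PairHyp π x y q) :
    ∃ s T T' : List Bool, s.length = q ∧ x = T ++ s ∧ y = T' ++ s := by
  obtain ⟨w, hw, hx, hy⟩ := h.ex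
  have hx' : w.reverse <:+ x ++ π := by
    have := List.reverse_suffix.2 hx
    rwa [h.px] at this
  have hy' : w.reverse <:+ y ++ π := by
    have := List.reverse_suffix.2 hy
    rwa [h.py] at this
  have h1 : π <:+ w.reverse :=
    List.suffix_of_suffix_length_le (List.suffix_append x π) hx' (by simp; omega)
  obtain ⟨s, hs⟩ := h1
  rw [← hs] at hx' hy'
  obtain ⟨T, hT⟩ := hx'
  obtain ⟨T', hT'⟩ := hy'
  rw [← List.append_assoc] at hT hT'
  refine ⟨s, T, T', ?_, (List.append_cancel_right hT).symm, (List.append_cancel_right hT').symm⟩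
  have := congrArg List.length hs
  simp at this; omega

theorem PairHyp.R2 {s1 π x y : List Bool} {q : ℕ} (h : PairHyp π x y q)
    {off m : ℕ} (ht : off < y.length) (ht2 : y.length ≤ off + q) :
    window (y ++ (s1 ++ π)) off m = window (x ++ (s1 ++ π)) (x.length + off - y.length) m := by
  obtain ⟨s, T, T', hs, hx, hy⟩ := h.suff
  subst hx hy
  simp only [List.append_assoc, List.length_append] at *
  rw [window_append' T' _ (by omega), window_append' T _ (by omega)]
  congr 1
  omega

end GPW
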