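import Pool.Agent.Helper79.GPW.Bound

/-! Difference words. -/

namespace GPW

/-- difference word -/
def dif (u : ℕ → Bool) : ℕ → Bool := fun i => xor (u i) (u (i+1))

/-- integration of a difference word -/
def integ : Bool → List Bool → List Bool
  | x, [] => [x]
  | x, a :: l => x :: integ (xor x a) l

@[simp] theorem integ_length (x : Bool) (s : List Bool) : (integ x s).length = s.length + 1 := by
  induction s generalizing x with
  | nil => rfl
  | cons a l ih => simp [integ, ih]

theorem integ_inj {x y : Bool} {s t : List Bool} (h : integ x s = integ y t) : x = y ∧ s = t := by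
  induction s generalizing x y t with
  | nil =>
    cases t with
    | nil => simpa [integ] using h
    | cons b m =>
      have := congrArg List.length h
      simp at this
  | cons a l ih =>
    cases t with
    | nil =>
      have := congrArg List.length h
      simp at this
    | cons b m =>
      simp only [integ, List.cons.injEq] at h
      obtain ⟨h1, h2⟩ := h
      obtain ⟨h3, h4⟩ := ih h2
      subst h1
      refine ⟨rfl, ?_⟩
      rw [h4]
      congr 1
      cases x <;> simpa using h3

theorem integ_append_singleton (x : Bool) (s : List Bool) (a : Bool) :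
    integ x (s ++ [a]) = integ x s ++ [xor (xor x (par s)) a] := by
  induction s generalizing x with
  | nil => simp [integ]
  | cons b l ih => simp [integ, ih]

theorem integ_reverse (x : Bool) (s : List Bool) :
    (integ x s).reverse = integ (xor x (par s)) s.reverse := by
  induction s generalizing x with
  | nil => simp [integ]
  | cons a l ih =>
    simp only [integ, List.reverse_cons, par_cons]
    rw [ih, integ_append_singleton, par_reverse]
    cases x <;> cases a <;> cases par l <;> rfl

theorem integ_not (x : Bool) (s : List Bool) :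
    (integ x s).map (fun a => !a) = integ (!x) s := by
  induction s generalizing x with
  | nil => simp [integ]
  | cons a l ih => simp [integ, ih]

theorem integ_prefix (x : Bool) {s t : List Bool} (h : s <+: t) : integ x s <+: integ x t := by
  obtain ⟨w, rfl⟩ := h
  induction s generalizing x with
  | nil =>
    cases w with
    | nil => exact List.prefix_rfl
    | cons a l => simp [integ]
  | cons a l ih =>
    simp only [integ, List.cons_append]
    exact (List.prefix_cons_inj _).2 (ih _)

theorem pre_succ' (u : ℕ → Bool) (n : ℕ) :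
    pre u (n+1) = u 0 :: pre (fun i => u (i+1)) n := by
  rw [Nat.add_comm, pre_add]
  simp [pre, Nat.add_comm]

theorem pre_integ (u : ℕ → Bool) (n : ℕ) : pre u (n+1) = integ (u 0) (pre (dif u) n) := by
  induction n generalizing u with
  | zero => simp [pre, integ]
  | succ n ih =>
    rw [pre_succ', ih, pre_succ']
    have h1 : (fun i => dif u (i+1)) = dif (fun i => u (i+1)) := rfl
    simp only [integ, h1]
    congr 2
    unfold dif
    cases u 0 <;> simp

/-- reversal palindromes -/
theorem integ_R {x : Bool} {s : List Bool} :
    (integ x s).reverse = integ x s ↔ Pal s ∧ par s = false := by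
  rw [integ_reverse]
  constructor
  · intro h
    obtain ⟨h1, h2⟩ := integ_inj h
    refine ⟨h2, ?_⟩
    cases x <;> simpa using h1
  · rintro ⟨h1, h2⟩
    rw [h1, h2]; simp

/-- exchange palindromes -/
theorem integ_E {x : Bool} {s : List Bool} :
    (integ x s).reverse.map (fun a => !a) = integ x s ↔ Pal s ∧ par s = true := by
  rw [integ_reverse, integ_not]
  constructor
  · intro h
    obtain ⟨h1, h2⟩ := integ_inj h
    refine ⟨h2, ?_⟩
    cases x <;> simpa using h1
  · rintro ⟨h1, h2⟩
    rw [h1, h2]; simp

theorem fac_finite (u : ℕ → Bool) (n : ℕ) : (fac u n).Finite := by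
  refine (List.finite_length_eq Bool n).subset ?_
  rintro f ⟨i, rfl⟩
  simp

theorem fac_le (u : ℕ → Bool) (n : ℕ) : (fac u (n+1)).ncard ≤ 2 * (fac (dif u) n).ncard := by
  have hsub : fac u (n+1) ⊆ (integ true '' fac (dif u) n) ∪ (integ false '' fac (dif u) n) := by
    rintro f ⟨i, rfl⟩
    have h1 : (List.range (n+1)).map (fun j => u (i+j)) =
        integ (u i) ((List.range n).map (fun j => dif u (i+j))) := by
      have := pre_integ (fun j => u (i+j)) n
      exact this
    rw [h1]
    cases h : u i
    · right; exact ⟨_, ⟨i, rfl⟩, rfl⟩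
    · left; exact ⟨_, ⟨i, rfl⟩, rfl⟩
  have hf := fac_finite (dif u) n
  have h1 := Set.ncard_le_ncard hsub ((hf.image _).union (hf.image _))
  have h2 := Set.ncard_union_le (integ true '' fac (dif u) n) (integ false '' fac (dif u) n)
  have h3 := Set.ncard_image_le (f := integ true) hf
  have h4 := Set.ncard_image_le (f := integ false) hf
  omega

/-- construct the enumeration of all palindromic prefixes -/
theorem enum_exists {v : ℕ → Bool} {L : ℕ → ℕ} (h0 : L 0 ≤ 1) (hmono : StrictMono L)
    (hpal : ∀ j, Pal (pre v (L j))) (hshort : ∀ j, Short v (L j) (L (j+1))) :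
    ∃ A, Enum v A := by
  classical
  have hex : ∀ n, ∃ m, n < m ∧ Pal (pre v m) := fun n =>
    ⟨L (n+1), by have := hmono.le_apply (x := n+1); omega, hpal _⟩
  let nx : ℕ → ℕ := fun n => Nat.find (hex n)
  have hnx1 : ∀ n, n < nx n := fun n => (Nat.find_spec (hex n)).1
  have hnx2 : ∀ n, Pal (pre v (nx n)) := fun n => (Nat.find_spec (hex n)).2
  have hnx3 : ∀ n m, n < m → m < nx n → ¬ Pal (pre v m) := fun n m h1 h2 h3 =>
    Nat.find_min (hex n) h2 ⟨h1, h3⟩
  let A : ℕ → ℕ := fun k => Nat.rec 0 (fun _ n => nx n) k
  have hA0 : A 0 = 0 := rfl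
  have hAs : ∀ k, A (k+1) = nx (A k) := fun k => rfl
  have hp : ∀ k, Pal (pre v (A k)) := by
    intro k
    cases k with
    | zero => rw [hA0]; simp [Pal]
    | succ k => rw [hAs]; exact hnx2 _
  refine ⟨A, hA0, fun k => by rw [hAs]; exact hnx1 _, hp, ?_, ?_⟩
  · intro k n h1 h2
    rw [hAs] at h2
    exact hnx3 _ _ h1 h2
  · intro k
    refine norm h0 hmono hpal hshort (hp k) (hp (k+1)) (by rw [hAs]; exact hnx1 _) ?_
    intro n h1 h2
    rw [hAs] at h2
    exact hnx3 _ _ h1 h2

end GPW
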