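import Pool.Agent.Helper79.GPW.Machine

/-! Invariants of the return words. -/

namespace GPW

/-- guaranteed overlap numbers -/
def q (v : ℕ → Bool) (A : ℕ → ℕ) : ℕ → Bool → ℕ
  | 0, _ => 1
  | k+1, e => if e = v (A k) ∧ kap v A (k+1) ≠ kap v A k then (r1 v A k).length else q v A k e

/-- length of return words -/
def ell (v : ℕ → Bool) (A : ℕ → ℕ) (k : ℕ) (e c : Bool) : ℕ := (r v A k e c).length

theorem r1_len (v : ℕ → Bool) (A : ℕ → ℕ) (k : ℕ) :
    (r1 v A k).length = ell v A k (v (A k)) (kap v A (k+1)) := rfl

theorem ell_succ_self (v : ℕ → Bool) (A : ℕ → ℕ) (k : ℕ) :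
    ell v A (k+1) (v (A k)) (kap v A k) = (r1 v A k).length := by
  unfold ell; rw [r_succ_self]

theorem ell_succ_of (v : ℕ → Bool) (A : ℕ → ℕ) (k : ℕ) {e c : Bool}
    (h : ¬ (e = v (A k) ∧ c = kap v A k)) :
    ell v A (k+1) e c = (r1 v A k).length + ell v A k e c := by
  unfold ell; rw [r_succ_of v A k h]; simp

theorem q_succ_self (v : ℕ → Bool) (A : ℕ → ℕ) (k : ℕ) (h : kap v A (k+1) ≠ kap v A k) :
    q v A (k+1) (v (A k)) = (r1 v A k).length := by
  simp [q, h]

theorem q_succ_S (v : ℕ → Bool) (A : ℕ → ℕ) (k : ℕ) (e : Bool) (h : kap v A (k+1) = kap v A k) :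
    q v A (k+1) e = q v A k e := by
  simp [q, h]

theorem q_succ_ne (v : ℕ → Bool) (A : ℕ → ℕ) (k : ℕ) (e : Bool) (h : e ≠ v (A k)) :
    q v A (k+1) e = q v A k e := by
  simp [q, h]

/-- the pair of letter `e` is composite -/
def Comp (v : ℕ → Bool) (A : ℕ → ℕ) (k : ℕ) (e : Bool) : Prop :=
  ∃ j, k = j + 1 ∧ e = v (A j) ∧ kap v A (j+1) ≠ kap v A j

structure Inv (v : ℕ → Bool) (A : ℕ → ℕ) (k : ℕ) : Prop where
  common : ∀ e, ∃ w : List Bool, w.length = A k + q v A k e ∧
    ∀ c, w <+: r v A k e c ++ pre v (A k)
  qle : ∀ e c, q v A k e ≤ ell v A k e c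
  two : ∀ e, 2 * q v A k e ≤ ell v A k e (kap v A k) + 1
  two' : ∀ e, 2 * q v A k e ≤ ell v A k e (!kap v A k) + 1 ∨ Comp v A k e
  psi : ell v A k true true + ell v A k true false + ell v A k false true
    + ell v A k false false ≤ 3 * A k + 3 + 2 * q v A k true + 2 * q v A k false

theorem Inv_zero {v : ℕ → Bool} {A : ℕ → ℕ} (hA : Enum v A) : Inv v A 0 where
  common := by
    intro e
    refine ⟨[e], by simp [hA.zero, q], ?_⟩
    intro c
    simp only [hA.zero, pre_zero, r, List.append_nil]
    exact gap_prefix e c
  qle := by intro e c; cases e <;> cases c <;> simp [q, ell, r, gap]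
  two := by intro e; cases e <;> simp [q, ell, r, gap, kap, hA.zero]
  two' := by intro e; left; cases e <;> simp [q, ell, r, gap, kap, hA.zero]
  psi := by simp [q, ell, r, gap, hA.zero]

/-- at a turn, the old composite return is short -/
theorem turn {v : ℕ → Bool} {A : ℕ → ℕ} {k : ℕ} {e : Bool} (h : Comp v A k e)
    (hne : e ≠ v (A k)) : q v A k e ≤ (r1 v A k).length := by
  obtain ⟨j, rfl, h2, h3⟩ := h
  subst h2
  rw [q_succ_self v A j h3, r1_len v A (j+1), ell_succ_of v A j (by
    rintro ⟨h4, _⟩; exact hne h4.symm)]
  omega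

theorem Inv_succ {v : ℕ → Bool} {A : ℕ → ℕ} (hA : Enum v A) {k : ℕ} (h : Inv v A k) :
    Inv v A (k+1) := by
  have hml := main_len hA k
  have hme := main_eq hA k
  have hpp : pre v (A k) <+: pre v (A (k+1)) := pre_prefix v (hA.lt k).le
  have hprefix : ∀ (w x : List Bool), w <+: x ++ pre v (A k) →
      w <+: x ++ pre v (A (k+1)) := fun w x hw =>
    hw.trans ((List.prefix_append_right_inj _).2 hpp)
  by_cases hS : kap v A (k+1) = kap v A k
  · -- state S
    have hr1 : (r1 v A k).length = ell v A k (v (A k)) (kap v A k) := by rw [r1_len, hS]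
    refine ⟨?_, ?_, ?_, ?_, ?_⟩
    · intro e
      obtain ⟨w, hw1, hw2⟩ := h.common e
      refine ⟨r1 v A k ++ w, ?_, ?_⟩
      · rw [q_succ_S v A k e hS]; simp; omega
      · intro c
        by_cases hec : e = v (A k) ∧ c = kap v A k
        · obtain ⟨rfl, rfl⟩ := hec
          rw [r_succ_self, hme]
          refine (List.prefix_append_right_inj _).2 ?_
          have := hw2 (kap v A (k+1))
          exact this
        · rw [r_succ_of v A k hec, List.append_assoc]
          exact (List.prefix_append_right_inj _).2 (hprefix _ _ (hw2 c))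
    · intro e c
      rw [q_succ_S v A k e hS]
      by_cases hec : e = v (A k) ∧ c = kap v A k
      · obtain ⟨rfl, rfl⟩ := hec
        rw [ell_succ_self, hr1]; exact h.qle _ _
      · rw [ell_succ_of v A k hec]
        have := h.qle e c; omega
    · intro e
      rw [q_succ_S v A k e hS, hS]
      by_cases he : e = v (A k)
      · subst he
        rw [ell_succ_self, hr1]; exact h.two _
      · rw [ell_succ_of v A k (by rintro ⟨h1, _⟩; exact he h1)]
        have := h.two e; omega
    · intro e
      left
      rw [q_succ_S v A k e hS, hS]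
      rw [ell_succ_of v A k (by rintro ⟨_, h1⟩; cases hh : kap v A k <;> simp [hh] at h1)]
      rcases h.two' e with h2 | h2
      · omega
      · by_cases he : e = v (A k)
        · subst he
          have := h.two (v (A k)); omega
        · have h3 := turn h2 he
          have h4 := h.qle e (!kap v A k)
          omega
    · rw [q_succ_S v A k _ hS, q_succ_S v A k _ hS]
      have hp := h.psi
      have key : ∀ e c, ell v A (k+1) e c = if e = v (A k) ∧ c = kap v A k then (r1 v A k).length
          else (r1 v A k).length + ell v A k e c := by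
        intro e c
        by_cases hec : e = v (A k) ∧ c = kap v A k
        · rw [if_pos hec]; obtain ⟨rfl, rfl⟩ := hec; exact ell_succ_self v A k
        · rw [if_neg hec]; exact ell_succ_of v A k hec
      simp only [key]
      cases hv : v (A k) <;> cases hk : kap v A k <;> simp [hv, hk] at hr1 ⊢ <;> omega
  · -- state O
    have hO : kap v A (k+1) = !kap v A k := by
      cases h1 : kap v A k <;> cases h2 : kap v A (k+1) <;> simp_all
    have hr1 : (r1 v A k).length = ell v A k (v (A k)) (!kap v A k) := by rw [r1_len, hO]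
    refine ⟨?_, ?_, ?_, ?_, ?_⟩
    · intro e
      by_cases he : e = v (A k)
      · subst he
        refine ⟨r1 v A k ++ pre v (A (k+1)), ?_, ?_⟩
        · rw [q_succ_self v A k hS]; simp; omega
        · intro c
          by_cases hc : c = kap v A k
          · subst hc
            rw [r_succ_self]
          · have hc' : c = kap v A (k+1) := by
              rw [hO]; cases c <;> cases h1 : kap v A k <;> simp_all
            rw [r_succ_of v A k (by rintro ⟨_, h1⟩; exact hc h1), List.append_assoc]
            refine (List.prefix_append_right_inj _).2 ?_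
            rw [hc']
            change _ <+: r1 v A k ++ _
            have := pre_prefix_r hA (k+1) (v (A k)) (kap v A k)
            rwa [r_succ_self] at this
      · obtain ⟨w, hw1, hw2⟩ := h.common e
        refine ⟨r1 v A k ++ w, ?_, ?_⟩
        · rw [q_succ_ne v A k e he]; simp; omega
        · intro c
          rw [r_succ_of v A k (by rintro ⟨h1, _⟩; exact he h1), List.append_assoc]
          exact (List.prefix_append_right_inj _).2 (hprefix _ _ (hw2 c))
    · intro e c
      by_cases he : e = v (A k)
      · subst he
        rw [q_succ_self v A k hS]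
        by_cases hc : c = kap v A k
        · subst hc; rw [ell_succ_self]
        · rw [ell_succ_of v A k (by rintro ⟨_, h1⟩; exact hc h1)]; omega
      · rw [q_succ_ne v A k e he, ell_succ_of v A k (by rintro ⟨h1, _⟩; exact he h1)]
        have := h.qle e c; omega
    · intro e
      rw [hO]
      rw [ell_succ_of v A k (by rintro ⟨_, h1⟩; cases hh : kap v A k <;> simp [hh] at h1)]
      by_cases he : e = v (A k)
      · subst he
        rw [q_succ_self v A k hS, ← hr1]; omega
      · rw [q_succ_ne v A k e he]
        rcases h.two' e with h2 | h2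
        · omega
        · have h3 := turn h2 he
          have h4 := h.qle e (!kap v A k)
          omega
    · intro e
      by_cases he : e = v (A k)
      · right
        exact ⟨k, rfl, he, hS⟩
      · left
        rw [q_succ_ne v A k e he, hO, Bool.not_not,
          ell_succ_of v A k (by rintro ⟨h1, _⟩; exact he h1)]
        have := h.two e; omega
    · have hp := h.psi
      have key : ∀ e c, ell v A (k+1) e c = if e = v (A k) ∧ c = kap v A k then (r1 v A k).length
          else (r1 v A k).length + ell v A k e c := by
        intro e c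
        by_cases hec : e = v (A k) ∧ c = kap v A k
        · rw [if_pos hec]; obtain ⟨rfl, rfl⟩ := hec; exact ell_succ_self v A k
        · rw [if_neg hec]; exact ell_succ_of v A k hec
      have keyq : ∀ e, q v A (k+1) e = if e = v (A k) then (r1 v A k).length else q v A k e := by
        intro e
        by_cases he : e = v (A k)
        · rw [if_pos he]; subst he; exact q_succ_self v A k hS
        · rw [if_neg he]; exact q_succ_ne v A k e he
      have hq1 := h.qle (v (A k)) (kap v A k)
      have hq2 := h.qle (v (A k)) (!kap v A k)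
      simp only [key, keyq]
      cases hv : v (A k) <;> cases hk : kap v A k <;> simp [hv, hk] at hr1 hq1 hq2 ⊢ <;> omega

theorem Inv_all {v : ℕ → Bool} {A : ℕ → ℕ} (hA : Enum v A) (k : ℕ) : Inv v A k := by
  induction k with
  | zero => exact Inv_zero hA
  | succ k ih => exact Inv_succ hA ih

/-- no same-parity step from a composite pair -/
theorem not_comp {v : ℕ → Bool} {A : ℕ → ℕ} (hA : Enum v A) (k : ℕ)
    (hS : kap v A (k+1) = kap v A k) : ¬ Comp v A k (v (A k)) := by
  rintro ⟨j, rfl, h2, h3⟩
  have h4 : r1 v A (j+1) = r1 v A j ++ r1 v A j := by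
    have : r1 v A (j+1) = r v A (j+1) (v (A j)) (kap v A (j+1)) := by
      unfold r1; rw [h2, hS]
    rw [this, r_succ_of v A j (by rintro ⟨_, h5⟩; exact h3 h5)]
    rfl
  have h5 := main_eq hA (j+1)
  rw [h4, List.append_assoc] at h5
  have h6 : Pal (r1 v A j ++ pre v (A (j+1))) := by
    have := r_pal hA (j+1) (v (A j)) (kap v A j)
    rwa [r_succ_self] at this
  have h7 : pre v (A (j+1)) <+: r1 v A j ++ pre v (A (j+1)) := by
    have := pre_prefix_r hA (j+1) (v (A j)) (kap v A j)
    rwa [r_succ_self] at this
  have h8 : r1 v A j ++ pre v (A (j+1)) <+: pre v (A (j+1+1)) := by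
    rw [h5]
    exact (List.prefix_append_right_inj _).2 h7
  have h9 := eq_pre_of_prefix h8
  have h10 := main_len hA (j+1)
  rw [h4] at h10
  have hpos : 0 < (r1 v A j).length := r_pos hA _ _ _
  simp at h10
  have := hA.cons (j+1) ((r1 v A j) ++ pre v (A (j+1))).length (by simp; omega) (by simp; omega)
  rw [← h9] at this
  exact this h6

end GPW
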