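import Pool.Agent.Helper79.GPW.Norm

/-! The return words `r k e c`. -/

namespace GPW

/-- `A` enumerates the lengths of the palindromic prefixes of `v`, each being a shortest
palindrome of its parity with the given prefix. -/
structure Enum (v : ℕ → Bool) (A : ℕ → ℕ) : Prop where
  zero : A 0 = 0
  lt : ∀ k, A k < A (k+1)
  pal : ∀ k, Pal (pre v (A k))
  cons : ∀ k n, A k < n → n < A (k+1) → ¬ Pal (pre v n)
  short : ∀ k, Short v (A k) (A (k+1))

/-- parity of the `k`-th palindromic prefix -/
def kap (v : ℕ → Bool) (A : ℕ → ℕ) (k : ℕ) : Bool := par (pre v (A k))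

/-- return words -/
def r (v : ℕ → Bool) (A : ℕ → ℕ) : ℕ → Bool → Bool → List Bool
  | 0, e, c => gap e c
  | k+1, e, c =>
    if e = v (A k) ∧ c = kap v A k then r v A k (v (A k)) (kap v A (k+1))
    else r v A k (v (A k)) (kap v A (k+1)) ++ r v A k e c

/-- the return word used at step `k` -/
def r1 (v : ℕ → Bool) (A : ℕ → ℕ) (k : ℕ) : List Bool := r v A k (v (A k)) (kap v A (k+1))

theorem r_succ_self (v : ℕ → Bool) (A : ℕ → ℕ) (k : ℕ) :
    r v A (k+1) (v (A k)) (kap v A k) = r1 v A k := by
  simp [r, r1]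

theorem r_succ_of (v : ℕ → Bool) (A : ℕ → ℕ) (k : ℕ) {e c : Bool}
    (h : ¬ (e = v (A k) ∧ c = kap v A k)) :
    r v A (k+1) e c = r1 v A k ++ r v A k e c := by
  simp only [r, r1]
  rw [if_neg h]

/-- the induction statement -/
def M (v : ℕ → Bool) (A : ℕ → ℕ) (k : ℕ) (e c : Bool) : Prop :=
  Pal (r v A k e c ++ pre v (A k)) ∧ par (r v A k e c ++ pre v (A k)) = c ∧
  pre v (A k) ++ [e] <+: r v A k e c ++ pre v (A k) ∧
  ∀ Y : List Bool, Pal Y → par Y = c → pre v (A k) ++ [e] <+: Y →
    (r v A k e c).length + A k < Y.length ∨ Y = r v A k e c ++ pre v (A k)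

theorem M_zero {v : ℕ → Bool} {A : ℕ → ℕ} (hA : Enum v A) (e c : Bool) : M v A 0 e c := by
  unfold M
  simp only [hA.zero, pre_zero, r, List.append_nil, List.nil_append]
  refine ⟨gap_pal _ _, gap_par _ _, gap_prefix _ _, ?_⟩
  intro Y h1 h2 h3
  obtain ⟨t, rfl⟩ := h3
  unfold Pal at h1
  match t with
  | [] => 
    revert h1 h2
    cases e <;> cases c <;> simp [gap]
  | [x] =>
    revert h1 h2
    cases e <;> cases c <;> cases x <;> simp [gap]
  | [x, y] =>
    revert h1 h2
    cases e <;> cases c <;> cases x <;> cases y <;> simp [gap]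
  | x :: y :: z :: l =>
    left
    have := gap_length_le e c
    simp; omega

theorem M.main {v : ℕ → Bool} {A : ℕ → ℕ} (hA : Enum v A) {k : ℕ}
    (h : M v A k (v (A k)) (kap v A (k+1))) :
    pre v (A (k+1)) = r1 v A k ++ pre v (A k) := by
  obtain ⟨m1, m2, m3, m4⟩ := h
  have hpe : pre v (A k + 1) = pre v (A k) ++ [v (A k)] := pre_succ v _
  have hp : pre v (A k) ++ [v (A k)] <+: pre v (A (k+1)) := by
    rw [← hpe]; exact pre_prefix v (hA.lt k)
  rcases m4 _ (hA.pal (k+1)) rfl hp with h | h
  · have := hA.short k _ m1 m2 (by rw [hpe]; exact m3)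
    simp at this h; omega
  · exact h

theorem low {v : ℕ → Bool} {A : ℕ → ℕ} (hA : Enum v A) {k : ℕ} {s1 : List Bool}
    (hm : pre v (A (k+1)) = s1 ++ pre v (A k)) {Y : List Bool} {e : Bool} (hY : Pal Y)
    (hp : pre v (A (k+1)) ++ [e] <+: Y) (hl : Y.length ≤ s1.length + A (k+1)) :
    e = v (A k) ∧ Y = s1 ++ pre v (A (k+1)) := by
  have hlen : A (k+1) = s1.length + A k := by
    have := congrArg List.length hm
    simpa using this
  have hp0 : pre v (A (k+1)) <+: Y := (List.prefix_append _ _).trans hp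
  obtain ⟨ρ, h1, h2⟩ := Pal.suffix (hA.pal (k+1)) hY hp0
  have hlY : Y.length = ρ.length + A (k+1) := by
    have := congrArg List.length h1
    simpa using this
  have hlY2 : A (k+1) + 1 ≤ Y.length := by
    have := hp.length_le
    simpa using this
  have h3 : ρ <+: Y := by rw [h1]; exact List.prefix_append _ _
  have h4 : ρ <+: pre v (A (k+1)) :=
    List.prefix_of_prefix_length_le h3 hp0 (by simp; omega)
  obtain ⟨s, hs⟩ := h4
  have hsl : ρ.length + s.length = A (k+1) := by
    have := congrArg List.length hs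
    simpa using this
  have h5 : s <+: pre v (A (k+1)) := by
    have h6 : ρ ++ s <+: ρ ++ pre v (A (k+1)) := by
      rw [hs, ← h1]; exact hp0
    exact (List.prefix_append_right_inj _).1 h6
  have h7 : Pal s := Pal.of_border (hA.pal (k+1)) hs.symm h5
  have h8 : s = pre v s.length := eq_pre_of_prefix h5
  have h9 : s.length = A k := by
    by_contra hne
    have := hA.cons k s.length (by omega) (by omega)
    rw [← h8] at this
    exact this h7
  have h10 : ρ = s1 := by
    rw [h9] at h8
    rw [hm, h8] at hs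
    exact List.append_cancel_right hs
  subst h10
  refine ⟨?_, h1⟩
  -- letter
  have h11 : pre v (A (k+1)) ++ [v (A k)] <+: Y := by
    rw [h1]
    conv_lhs => rw [hm]
    rw [List.append_assoc, ← pre_succ]
    exact (List.prefix_append_right_inj _).2 (pre_prefix v (hA.lt k))
  have h12 := (List.prefix_of_prefix_length_le hp h11 (by simp)).eq_of_length (by simp)
  simpa using h12

theorem strip {s1 π Y : List Bool} {e : Bool} (hY : Pal Y)
    (hp : (s1 ++ π) ++ [e] <+: Y) (hl : s1.length + (s1.length + π.length) < Y.length) :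
    ∃ Y', Pal Y' ∧ par Y' = par Y ∧ π ++ [e] <+: Y' ∧ Y = s1 ++ Y' ++ s1.reverse := by
  obtain ⟨T', hT'⟩ := hp
  set T := π ++ [e] ++ T' with hT
  have hYT : Y = s1 ++ T := by rw [← hT', hT]; simp
  have hTl : Y.length = s1.length + T.length := by
    rw [hYT]; simp
  have h1 : s1.reverse <:+ Y := by
    have : Y = T.reverse ++ s1.reverse := by
      rw [← hY, hYT]; simp
    rw [this]; exact List.suffix_append _ _
  have h2 : T <:+ Y := by rw [hYT]; exact List.suffix_append _ _
  have h3 : s1.reverse <:+ T := List.suffix_of_suffix_length_le h1 h2 (by simp; omega)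
  obtain ⟨Y', hY'⟩ := h3
  have h4 : Y = s1 ++ Y' ++ s1.reverse := by rw [hYT, ← hY']; simp
  have hl' : T.length = Y'.length + s1.length := by rw [← hY']; simp
  refine ⟨Y', ?_, ?_, ?_, h4⟩
  · have h5 := hY
    unfold Pal at h5 ⊢
    rw [h4] at h5
    simp only [List.reverse_append, List.reverse_reverse, List.append_assoc] at h5
    have h6 := List.append_cancel_left h5
    exact List.append_cancel_right h6
  · rw [h4, par_append, par_append, par_reverse, Bool.xor_comm, ← Bool.xor_assoc]; simp
  · have h6 : π ++ [e] <+: T := by rw [hT]; exact List.prefix_append _ _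
    have h7 : Y' <+: T := by rw [← hY']; exact List.prefix_append _ _
    exact List.prefix_of_prefix_length_le h6 h7 (by simp; omega)

theorem M_succ {v : ℕ → Bool} {A : ℕ → ℕ} (hA : Enum v A) {k : ℕ}
    (h : ∀ e c, M v A k e c) (e c : Bool) : M v A (k+1) e c := by
  have hm := M.main hA (h (v (A k)) (kap v A (k+1)))
  set s1 := r1 v A k with hs1
  obtain ⟨s, hs, hs'⟩ := Pal.suffix (hA.pal k) (hA.pal (k+1)) (pre_prefix v (hA.lt k).le)
  have hss : s = s1 := by
    rw [hm] at hs
    exact (List.append_cancel_right hs).symm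
  subst hss
  have hlen : A (k+1) = s1.length + A k := by
    have := congrArg List.length hm
    simpa using this
  have hk1 : kap v A (k+1) = xor (par s1) (kap v A k) := by
    unfold kap
    conv_lhs => rw [hm]
    rw [par_append]
  by_cases hec : e = v (A k) ∧ c = kap v A k
  · obtain ⟨rfl, rfl⟩ := hec
    unfold M
    rw [r_succ_self, ← hs1]
    refine ⟨?_, ?_, ?_, ?_⟩
    · rw [hs', ← List.append_assoc]; exact Pal.conj (hA.pal k)
    · rw [par_append]
      change xor (par s1) (kap v A (k+1)) = _
      rw [hk1, ← Bool.xor_assoc]; simp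
    · conv_lhs => rw [hm]
      rw [List.append_assoc, ← pre_succ]
      exact (List.prefix_append_right_inj _).2 (pre_prefix v (hA.lt k))
    · intro Y h1 h2 h3
      by_cases hl : Y.length ≤ s1.length + A (k+1)
      · right
        exact (low hA hm h1 h3 hl).2
      · left; omega
  · unfold M
    rw [r_succ_of v A k hec, ← hs1]
    obtain ⟨m1, m2, m3, m4⟩ := h e c
    have e1 : s1 ++ r v A k e c ++ pre v (A (k+1)) =
        s1 ++ (r v A k e c ++ pre v (A k)) ++ s1.reverse := by
      rw [hs']; simp
    refine ⟨?_, ?_, ?_, ?_⟩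
    · rw [e1]; exact Pal.conj m1
    · rw [e1, par_append, par_append, par_reverse, m2, Bool.xor_comm, ← Bool.xor_assoc]; simp
    · rw [e1, hm, List.append_assoc]
      exact ((List.prefix_append_right_inj _).2 m3).trans (List.prefix_append _ _)
    · intro Y h1 h2 h3
      by_cases hl : Y.length ≤ s1.length + A (k+1)
      · exfalso
        obtain ⟨g1, g2⟩ := low hA hm h1 h3 hl
        apply hec
        refine ⟨g1, ?_⟩
        rw [← h2, g2, par_append]
        change xor (par s1) (kap v A (k+1)) = _
        rw [hk1, ← Bool.xor_assoc]; simp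
      · have h3' : (s1 ++ pre v (A k)) ++ [e] <+: Y := by rw [← hm]; exact h3
        obtain ⟨Y', y1, y2, y3, y4⟩ := strip h1 h3' (by simp; omega)
        rcases m4 Y' y1 (y2.trans h2) y3 with h5 | h5
        · left
          rw [y4]
          simp; omega
        · right
          rw [y4, h5, e1]

theorem M_all {v : ℕ → Bool} {A : ℕ → ℕ} (hA : Enum v A) (k : ℕ) : ∀ e c, M v A k e c := by
  induction k with
  | zero => exact M_zero hA
  | succ k ih => exact M_succ hA ih

theorem main_eq {v : ℕ → Bool} {A : ℕ → ℕ} (hA : Enum v A) (k : ℕ) :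
    pre v (A (k+1)) = r1 v A k ++ pre v (A k) := M.main hA (M_all hA k _ _)

theorem main_len {v : ℕ → Bool} {A : ℕ → ℕ} (hA : Enum v A) (k : ℕ) :
    A (k+1) = (r1 v A k).length + A k := by
  have := congrArg List.length (main_eq hA k)
  simpa using this

theorem pre_prefix_r {v : ℕ → Bool} {A : ℕ → ℕ} (hA : Enum v A) (k : ℕ) (e c : Bool) :
    pre v (A k) <+: r v A k e c ++ pre v (A k) :=
  (List.prefix_append _ _).trans (M_all hA k e c).2.2.1

theorem r_pal {v : ℕ → Bool} {A : ℕ → ℕ} (hA : Enum v A) (k : ℕ) (e c : Bool) :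
    Pal (r v A k e c ++ pre v (A k)) := (M_all hA k e c).1

theorem r_pos {v : ℕ → Bool} {A : ℕ → ℕ} (hA : Enum v A) (k : ℕ) (e c : Bool) :
    0 < (r v A k e c).length := by
  have := (M_all hA k e c).2.2.1.length_le
  simp at this; omega

end GPW
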