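import Pool.Agent.Helper79.GPW.Word

/-! Normalisation: intermediate palindromic prefixes. -/

namespace GPW

/-- `pre v x` is a shortest palindrome of its parity having `pre v (a+1)` as prefix. -/
def Short (v : ℕ → Bool) (a x : ℕ) : Prop :=
  ∀ Y : List Bool, Pal Y → par Y = par (pre v x) → pre v (a+1) <+: Y → x ≤ Y.length

theorem down {v : ℕ → Bool} {b x : ℕ} (hbx : b < x) (hb : Pal (pre v b)) (hx : Pal (pre v x))
    (hxb : x ≤ 2 * b) :
    pre v b = pre v (x-b) ++ pre v (2*b-x) ∧ Pal (pre v (2*b-x)) ∧
      par (pre v (2*b-x)) = par (pre v x) := by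
  have h1 := Pal.pre_split hb hx hbx.le
  have h2 : ∀ i < 2*b-x, v (x-b+i) = v i := fun i hi => Pal.period hb hx hbx.le (by omega)
  have h3 : pre v b = pre v (x-b) ++ pre v (2*b-x) := by
    have := (pre_split_iff v (x-b) (2*b-x)).2 h2
    rwa [show x - b + (2*b-x) = b by omega] at this
  refine ⟨h3, Pal.of_border hb h3 (pre_prefix v (by omega)), ?_⟩
  rw [h1, par_append, h3, par_append, ← Bool.xor_assoc]
  simp

theorem lemF (v : ℕ → Bool) (a b x : ℕ) (hab : a < b) (hbx : b < x)
    (ha : Pal (pre v a)) (hb : Pal (pre v b)) (hx : Pal (pre v x))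
    (hmin : Short v a x) :
    par (pre v b) ≠ par (pre v x) ∧
    ((par (pre v a) = par (pre v x) ∧ x + a = 2 * b) ∨
     (par (pre v a) ≠ par (pre v x) ∧ b = a+1)) := by
  have h0 : par (pre v b) ≠ par (pre v x) := by
    intro h
    have := hmin (pre v b) hb h (pre_prefix v hab)
    simp at this; omega
  refine ⟨h0, ?_⟩
  have sb := Pal.pre_split ha hb hab.le
  have sx := Pal.pre_split hb hx hbx.le
  have pb : par (pre v b) = xor (par (pre v (b-a))) (par (pre v a)) := by
    conv_lhs => rw [sb]
    rw [par_append]
  by_cases hk : par (pre v a) = par (pre v x)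
  · left
    refine ⟨hk, ?_⟩
    have hup : x ≤ (b - a) + b := by
      have := hmin (pre v (b-a) ++ pre v b) (Pal.up ha hb hab.le) ?_ ?_
      · simpa using this
      · rw [par_append, pb, ← Bool.xor_assoc]; simpa using hk
      · have h1 : pre v (b-a) ++ pre v a <+: pre v (b-a) ++ pre v b :=
          (List.prefix_append_right_inj _).2 (pre_prefix v hab.le)
        rw [← sb] at h1
        exact (pre_prefix v hab).trans h1
    by_contra hne
    have hlt : 2 * b - x > a := by omega
    obtain ⟨_, z2, z3⟩ := down hbx hb hx (by omega)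
    have := hmin _ z2 z3 (pre_prefix v hlt)
    simp at this; omega
  · right
    refine ⟨hk, ?_⟩
    by_contra hne
    have hb2 : a + 2 ≤ b := by omega
    have hpe : pre v (a+1) = pre v a ++ [v a] := pre_succ v a
    have hgap : x ≤ a + (gap (v a) (par (pre v x))).length + a := by
      have := hmin (pre v a ++ gap (v a) (par (pre v x)) ++ pre v a)
        (Pal.sandwich ha (gap_pal _ _)) ?_ ?_
      · simp at this; omega
      · rw [par_append, par_append, gap_par, Bool.xor_comm, ← Bool.xor_assoc]; simp
      · rw [hpe, List.append_assoc]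
        exact (List.prefix_append_right_inj _).2
          ((gap_prefix _ _).trans (List.prefix_append _ _))
    have hg3 := gap_length_le (v a) (par (pre v x))
    obtain ⟨z1, z2, z3⟩ := down hbx hb hx (by omega)
    set z := 2 * b - x with hz
    have hz1 : 1 ≤ z := by omega
    have hza : z < a := by
      rcases lt_trichotomy z a with h | h | h
      · exact h
      · rw [h] at z3; exact absurd z3 hk
      · have := hmin _ z2 z3 (pre_prefix v h)
        simp at this; omega
    -- letter after Z
    have hze : v z ≠ v a := by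
      intro hza'
      have s1 := Pal.pre_split z2 ha hza.le
      have hpalY : Pal (pre v (a-z) ++ pre v a) := Pal.up z2 ha hza.le
      have pa : par (pre v a) = xor (par (pre v (a-z))) (par (pre v z)) := by
        conv_lhs => rw [s1]
        rw [par_append]
      have hpar : par (pre v (a-z) ++ pre v a) = par (pre v x) := by
        rw [par_append, pa, ← Bool.xor_assoc]; simpa using z3
      have hpref : pre v (a+1) <+: pre v (a-z) ++ pre v a := by
        have h1 : pre v (a-z) ++ pre v (z+1) <+: pre v (a-z) ++ pre v a :=
          (List.prefix_append_right_inj _).2 (pre_prefix v hza)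
        rw [pre_succ, ← List.append_assoc, ← s1, hza', ← pre_succ] at h1
        exact h1
      have := hmin _ hpalY hpar hpref
      simp at this; omega
    have pQ : ∀ i < a, v (b - a + i) = v i := fun i hi => Pal.period ha hb hab.le hi
    have pX : ∀ i < b, v (x - b + i) = v i := fun i hi => Pal.period hb hx hbx.le hi
    by_cases hzp : b - a ≤ z
    · apply hze
      have h1 := pQ (z - (b-a)) (by omega)
      have h2 := pX (z - (b-a)) (by omega)
      rw [show b - a + (z - (b-a)) = z by omega] at h1
      rw [show x - b + (z - (b-a)) = a by omega] at h2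
      rw [h1, h2]
    · have hz' : z = 1 := by omega
      have hb' : b = a + 2 := by omega
      have hg : 3 ≤ (gap (v a) (par (pre v x))).length := by omega
      obtain ⟨g1, g2⟩ := gap_len3 _ _ hg
      have hv0 : v 0 = true := by
        rw [hz', g2] at z3
        simpa [pre] using z3
      have h1 := Pal.sym hb (i := a) (by omega)
      rw [hb', show a + 2 - 1 - a = 1 by omega] at h1
      rw [hz'] at hze
      exact hze h1

theorem norm {v : ℕ → Bool} {L : ℕ → ℕ} (h0 : L 0 ≤ 1) (hmono : StrictMono L)
    (hpal : ∀ j, Pal (pre v (L j))) (hshort : ∀ j, Short v (L j) (L (j+1)))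
    {a b : ℕ} (ha : Pal (pre v a)) (hb : Pal (pre v b)) (hab : a < b)
    (hcons : ∀ n, a < n → n < b → ¬ Pal (pre v n)) : Short v a b := by
  by_cases hb1 : b = a + 1
  · intro Y _ _ h3
    have := h3.length_le
    simp at this; omega
  have hL0 : L 0 ≤ a := by
    by_contra h
    have h2 : b ≤ L 0 := by
      by_contra h3
      exact hcons (L 0) (by omega) (by omega) (hpal 0)
    omega
  have hex : ∃ j, a < L j := ⟨a+1, by have := hmono.le_apply (x := a+1); omega⟩
  obtain ⟨j, hj⟩ : ∃ j, Nat.find hex = j + 1 := by
    refine Nat.exists_eq_succ_of_ne_zero ?_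
    intro h
    have := Nat.find_spec hex
    rw [h] at this; omega
  have hj1 : a < L (j+1) := by rw [← hj]; exact Nat.find_spec hex
  have hj0 : L j ≤ a := by
    have := Nat.find_min hex (m := j) (by omega)
    omega
  have hbx : b ≤ L (j+1) := by
    by_contra h3
    exact hcons (L (j+1)) hj1 (by omega) (hpal _)
  rcases hbx.lt_or_eq with hlt | heq
  · obtain ⟨F1, F2⟩ := lemF v (L j) b (L (j+1)) (by omega) hlt (hpal j) hb (hpal _) (hshort j)
    have haj : a = L j := by
      by_contra hne
      obtain ⟨G1, G2⟩ := lemF v (L j) a (L (j+1)) (by omega) hj1 (hpal j) ha (hpal _) (hshort j)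
      rcases F2 with ⟨f1, f2⟩ | ⟨f1, f2⟩
      · rcases G2 with ⟨g1, g2⟩ | ⟨g1, g2⟩
        · omega
        · exact g1 f1
      · omega
    rcases F2 with ⟨f1, f2⟩ | ⟨f1, f2⟩
    swap
    · omega
    rw [← haj] at f1 f2
    intro Y h1 h2 h3
    by_contra hlen
    obtain ⟨ρ, r1, r2⟩ := Pal.suffix ha h1 ((pre_prefix v (Nat.le_succ a)).trans h3)
    have hlY : Y.length = ρ.length + a := by
      have := congrArg List.length r1
      simpa using this
    have := hshort j (ρ ++ Y) ?_ ?_ ?_
    · simp at this; omega
    · rw [r2, ← List.append_assoc]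
      exact Pal.conj ha
    · have : par Y = xor (par ρ) (par (pre v a)) := by
        conv_lhs => rw [r1]
        rw [par_append]
      rw [par_append, this, ← Bool.xor_assoc]
      simpa using f1
    · have h5 : ρ ++ pre v a <+: ρ ++ Y :=
          (List.prefix_append_right_inj _).2 ((pre_prefix v (Nat.le_succ a)).trans h3)
      rw [← r1] at h5
      exact ((pre_prefix v (by omega)).trans h3).trans h5
  · intro Y h1 h2 h3
    rw [heq] at h2 ⊢
    exact hshort j Y h1 h2 ((pre_prefix v (by omega)).trans h3)

end GPW
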