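import Mathlib

/-! Basic facts on binary words, palindromes and parities. -/

namespace GPW

/-- parity of the number of ones -/
def par : List Bool → Bool
  | [] => false
  | a :: l => xor a (par l)

@[simp] theorem par_nil : par [] = false := rfl
@[simp] theorem par_cons (a : Bool) (l : List Bool) : par (a :: l) = xor a (par l) := rfl

theorem par_append (l m : List Bool) : par (l ++ m) = xor (par l) (par m) := by
  induction l with
  | nil => simp
  | cons a l ih => simp [ih, Bool.xor_assoc]

theorem par_reverse (l : List Bool) : par l.reverse = par l := by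
  induction l with
  | nil => rfl
  | cons a l ih => simp [par_append, ih, Bool.xor_comm]

/-- palindromes -/
def Pal (w : List Bool) : Prop := w.reverse = w

/-- prefix of length `n` of an infinite word -/
def pre (v : ℕ → Bool) (n : ℕ) : List Bool := (List.range n).map v

@[simp] theorem length_pre (v : ℕ → Bool) (n : ℕ) : (pre v n).length = n := by simp [pre]

@[simp] theorem pre_zero (v : ℕ → Bool) : pre v 0 = [] := rfl

theorem pre_succ (v : ℕ → Bool) (n : ℕ) : pre v (n+1) = pre v n ++ [v n] := by
  simp [pre, List.range_succ]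

theorem pre_add (v : ℕ → Bool) (m n : ℕ) :
    pre v (m+n) = pre v m ++ pre (fun i => v (m+i)) n := by
  induction n with
  | zero => simp
  | succ n ih => rw [← Nat.add_assoc, pre_succ, ih, pre_succ]; simp

theorem pre_prefix (v : ℕ → Bool) {m n : ℕ} (h : m ≤ n) : pre v m <+: pre v n := by
  obtain ⟨k, rfl⟩ := Nat.exists_eq_add_of_le h
  rw [pre_add]; exact List.prefix_append _ _

theorem pre_congr {v v' : ℕ → Bool} {n : ℕ} : pre v n = pre v' n ↔ ∀ i < n, v i = v' i := by
  simp [pre]

theorem eq_pre_of_prefix {v : ℕ → Bool} {w : List Bool} {n : ℕ} (h : w <+: pre v n) :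
    w = pre v w.length := by
  have h1 : w.length ≤ n := by simpa using h.length_le
  exact (List.prefix_of_prefix_length_le h (pre_prefix v h1) (by simp)).eq_of_length (by simp)

theorem pre_split_iff (v : ℕ → Bool) (m n : ℕ) :
    pre v (m+n) = pre v m ++ pre v n ↔ ∀ i < n, v (m+i) = v i := by
  rw [pre_add, List.append_cancel_left_eq, pre_congr]

theorem Pal.sym {v : ℕ → Bool} {n : ℕ} (h : Pal (pre v n)) {i : ℕ} (hi : i < n) :
    v (n-1-i) = v i := by
  unfold Pal at h
  have h1 : ((pre v n).reverse)[i]? = (pre v n)[i]? := by rw [h]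
  rw [List.getElem?_reverse (by simpa using hi)] at h1
  simp [pre, hi, show n - 1 - i < n by omega] at h1
  exact h1

theorem Pal.suffix {P X : List Bool} (hP : Pal P) (hX : Pal X) (h : P <+: X) :
    ∃ r, X = r ++ P ∧ X = P ++ r.reverse := by
  have h1 : P <:+ X := by
    have := List.reverse_suffix.2 h
    rwa [hP, hX] at this
  obtain ⟨r, hr⟩ := h1
  refine ⟨r, hr.symm, ?_⟩
  have := congrArg List.reverse hr
  rw [List.reverse_append, hP, hX] at this
  exact this.symm

theorem Pal.of_border {s z w : List Bool} (hw : Pal w) (h : w = s ++ z) (hz : z <+: w) : Pal z := by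
  have h1 : z.reverse <+: w := by
    have : w.reverse = z.reverse ++ s.reverse := by rw [h]; simp
    rw [hw] at this
    rw [this]; exact List.prefix_append _ _
  exact (List.prefix_of_prefix_length_le h1 hz (by simp)).eq_of_length (by simp)

theorem Pal.pre_split {v : ℕ → Bool} {a b : ℕ} (ha : Pal (pre v a)) (hb : Pal (pre v b))
    (hab : a ≤ b) : pre v b = pre v (b-a) ++ pre v a := by
  obtain ⟨r, h1, _⟩ := Pal.suffix ha hb (pre_prefix v hab)
  have h2 : r = pre v r.length := by
    apply eq_pre_of_prefix (n := b)
    rw [h1]; exact List.prefix_append _ _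
  have h3 : r.length = b - a := by
    have := congrArg List.length h1
    simp at this; omega
  rw [h1, h2, h3]

theorem Pal.period {v : ℕ → Bool} {a b : ℕ} (ha : Pal (pre v a)) (hb : Pal (pre v b))
    (hab : a ≤ b) {i : ℕ} (hi : i < a) : v (b - a + i) = v i := by
  have h := Pal.pre_split ha hb hab
  have h2 : pre v (b - a + a) = pre v (b-a) ++ pre v a := by rwa [Nat.sub_add_cancel hab]
  exact (pre_split_iff v (b-a) a).1 h2 i hi

theorem Pal.up {v : ℕ → Bool} {a b : ℕ} (ha : Pal (pre v a)) (hb : Pal (pre v b))
    (hab : a ≤ b) : Pal (pre v (b-a) ++ pre v b) := by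
  have h := Pal.pre_split ha hb hab
  unfold Pal
  rw [List.reverse_append, hb]
  nth_rw 2 [← hb]
  rw [h, List.reverse_append, ha]
  simp

/-- gap words -/
def gap (e c : Bool) : List Bool :=
  if e then (if c then [true] else [true, true]) else (if c then [false, true, false] else [false])

theorem gap_pal (e c : Bool) : Pal (gap e c) := by
  cases e <;> cases c <;> rfl

theorem gap_par (e c : Bool) : par (gap e c) = c := by
  cases e <;> cases c <;> rfl

theorem gap_prefix (e c : Bool) : [e] <+: gap e c := by
  cases e <;> cases c <;> simp [gap]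

theorem gap_length_le (e c : Bool) : (gap e c).length ≤ 3 := by
  cases e <;> cases c <;> simp [gap]

theorem gap_len3 (e c : Bool) (h : 3 ≤ (gap e c).length) : e = false ∧ c = true := by
  revert h
  cases e <;> cases c <;> simp [gap]

theorem Pal.sandwich {P g : List Bool} (hP : Pal P) (hg : Pal g) : Pal (P ++ g ++ P) := by
  unfold Pal
  rw [List.reverse_append, List.reverse_append, hP, hg]; simp

theorem Pal.conj {r g : List Bool} (hg : Pal g) : Pal (r ++ g ++ r.reverse) := by
  unfold Pal
  rw [List.reverse_append, List.reverse_append, hg]; simp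

end GPW
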